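import Mathlib
import Pool.Agent.Q259.MaxDet

/-!
# The determinant-maximising matrix of a graph can have negative entries

Blow up the vertices of the graph on `{0, …, 5}` with the edges `02`, `12`, `13`, `23`, `34`, `05`, `45`
to independent sets of `200`, `1`, `6`, `400`, `15`, `1` vertices, and take `x = 1 / 5`. The entry of the
determinant-maximising matrix at the vertices of the classes `1` and `5` is negative.
-/

set_option autoImplicit false

namespace Pool.Agent.Results.MP_e7c87c_co.NegativeEntry

open Matrix Finset Pool.Agent.Q259.MaxDet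

/-- The sizes of the classes. -/
def sz : Fin 6 → ℕ := ![200, 1, 6, 400, 15, 1]

/-- The vertices. -/
abbrev V : Type := (c : Fin 6) × Fin (sz c)

/-- The edges of the base graph. -/
def base : Fin 6 → Fin 6 → Bool := ![
  ![false, false, true, false, false, true],
  ![false, false, true, true, false, false],
  ![true, true, false, true, false, false],
  ![false, true, true, false, true, false],
  ![false, false, false, true, false, true],
  ![true, false, false, false, true, false]]

/-- The graph: two vertices are adjacent if their classes are adjacent in the base graph. -/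
def G : SimpleGraph V where
  Adj v w := base v.1 w.1 = true
  symm := ⟨fun v w h => by
    have : ∀ a b : Fin 6, base a b = base b a := by decide
    show base w.1 v.1 = true
    rw [this]; exact h⟩
  loopless := ⟨fun v h => by
    have : ∀ a : Fin 6, base a a = false := by decide
    have h2 : base v.1 v.1 = true := h
    rw [this] at h2
    exact Bool.false_ne_true h2⟩

/-- The entries of the comparison matrix. -/
def P : Fin 6 → Fin 6 → ℚ := ![![(2734009 / 50000000), (3200089 / 100000000), (1 / 5), (2342841 / 50000000), (10704737 / 100000000), (1 / 5)],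
    ![(3200089 / 100000000), 0, (1 / 5), (1 / 5), (26593137 / 50000000), (-7 / 100)],
    ![(1 / 5), (1 / 5), (9264939 / 12500000), (1 / 5), (11912119 / 25000000), (3827893 / 6250000)],
    ![(2342841 / 50000000), (1 / 5), (1 / 5), (1540153 / 20000000), (1 / 5), (10686187 / 100000000)],
    ![(10704737 / 100000000), (26593137 / 50000000), (11912119 / 25000000), (1 / 5), (50995377 / 100000000), (1 / 5)],
    ![(1 / 5), (-7 / 100), (3827893 / 6250000), (10686187 / 100000000), (1 / 5), 0]]

/-- The entries of its inverse. -/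
def B : Fin 6 → Fin 6 → ℚ := ![![(-272204647768028217102575515688701802500000 / 358568737837922450683023565318830501131654970073003), (-371660617589808179820925213530000000 / 7586188933136352746375794073985045635278333), (-253327186375491086351313566161478187500000 / 7586188933136352746375794073985045635278333), (15238860773641160284357537835000000 / 7586188933136352746375794073985045635278333), (-93265208587658458966089794235000000 / 7586188933136352746375794073985045635278333), (-674078623533234499917308315845398575000000 / 7586188933136352746375794073985045635278333)],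
    ![(-371660617589808179820925213530000000 / 7586188933136352746375794073985045635278333), (352131268624489797392905704795542052892495003 / 68275700398227174717382146665865410717504997), (27569939675856265648367455748443191625000000 / 22758566799409058239127382221955136905834999), (-1890135680278219261385429448527980610000000 / 22758566799409058239127382221955136905834999), (40751035670527021173749285683870000000 / 68275700398227174717382146665865410717504997), (-32131544401212843203195284592512459850000000 / 68275700398227174717382146665865410717504997)],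
    ![(-253327186375491086351313566161478187500000 / 7586188933136352746375794073985045635278333), (27569939675856265648367455748443191625000000 / 22758566799409058239127382221955136905834999), (11510273414188580166597402008896743337500000 / 24541783956221022452043222752780135717909159233313), (-167889215863356741922441915096650682500000 / 7586188933136352746375794073985045635278333), (5534043346650926941877713183750000000 / 22758566799409058239127382221955136905834999), (1157965183971256322285165132987500000 / 22758566799409058239127382221955136905834999)],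
    ![(15238860773641160284357537835000000 / 7586188933136352746375794073985045635278333), (-1890135680278219261385429448527980610000000 / 22758566799409058239127382221955136905834999), (-167889215863356741922441915096650682500000 / 7586188933136352746375794073985045635278333), (610187951413953561980242246074379668750000 / 140039887018790301836126963109270622715255829595051), (-305460520557241471776808930238054900000000 / 22758566799409058239127382221955136905834999), (-580697585241333332068214655893750000 / 22758566799409058239127382221955136905834999)],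
    ![(-93265208587658458966089794235000000 / 7586188933136352746375794073985045635278333), (40751035670527021173749285683870000000 / 68275700398227174717382146665865410717504997), (5534043346650926941877713183750000000 / 22758566799409058239127382221955136905834999), (-305460520557241471776808930238054900000000 / 22758566799409058239127382221955136905834999), (395675336861786488751321181518823637120000000 / 3345824958076072565380443644291441420951491878601131), (11305446283894488710326264703269631500000000 / 68275700398227174717382146665865410717504997)],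
    ![(-674078623533234499917308315845398575000000 / 7586188933136352746375794073985045635278333), (-32131544401212843203195284592512459850000000 / 68275700398227174717382146665865410717504997), (1157965183971256322285165132987500000 / 22758566799409058239127382221955136905834999), (-580697585241333332068214655893750000 / 22758566799409058239127382221955136905834999), (11305446283894488710326264703269631500000000 / 68275700398227174717382146665865410717504997), (206502819211719443597187200871874013313745003 / 68275700398227174717382146665865410717504997)]]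

/-- The sizes as rational numbers. -/
def m : Fin 6 → ℚ := ![200, 1, 6, 400, 15, 1]

lemma quad_form (s0 s1 s2 s3 s4 s5 : ℝ) :
    0 ≤ (5893411919 / 100000000000) * (s0 * s0) + (3200089 / 100000000) * (s0 * s1) + (1 / 5) * (s0 * s2) + (2342841 / 50000000) * (s0 * s3) + (10704737 / 100000000) * (s0 * s4) + (1 / 5) * (s0 * s5) + (3200089 / 100000000) * (s1 * s0) + (9 / 10) * (s1 * s1) + (1 / 5) * (s1 * s2) + (1 / 5) * (s1 * s3) + (26593137 / 50000000) * (s1 * s4) + (-7 / 100) * (s1 * s5) + (1 / 5) * (s2 * s0) + (1 / 5) * (s2 * s1) + (195003963 / 250000000) * (s2 * s2) + (1 / 5) * (s2 * s3) + (11912119 / 25000000) * (s2 * s4) + (3827893 / 6250000) * (s2 * s5) + (2342841 / 50000000) * (s3 * s0) + (1 / 5) * (s3 * s1) + (1 / 5) * (s3 * s2) + (6326750623 / 80000000000) * (s3 * s3) + (1 / 5) * (s3 * s4) + (10686187 / 100000000) * (s3 * s5) + (10704737 / 100000000) * (s4 * s0) + (26593137 / 50000000) * (s4 * s1) + (11912119 / 25000000) * (s4 * s2) + (1 / 5) * (s4 * s3) + (2696782719 / 5000000000) * (s4 * s4) + (1 / 5) * (s4 * s5)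 + (1 / 5) * (s5 * s0) + (-7 / 100) * (s5 * s1) + (3827893 / 6250000) * (s5 * s2) + (10686187 / 100000000) * (s5 * s3) + (1 / 5) * (s5 * s4) + (9 / 10) * (s5 * s5) := by
  have h : (5893411919 / 100000000000) * (s0 * s0) + (3200089 / 100000000) * (s0 * s1) + (1 / 5) * (s0 * s2) + (2342841 / 50000000) * (s0 * s3) + (10704737 / 100000000) * (s0 * s4) + (1 / 5) * (s0 * s5) + (3200089 / 100000000) * (s1 * s0) + (9 / 10) * (s1 * s1) + (1 / 5) * (s1 * s2) + (1 / 5) * (s1 * s3) + (26593137 / 50000000) * (s1 * s4) + (-7 / 100) * (s1 * s5) + (1 / 5) * (s2 * s0) + (1 / 5) * (s2 * s1) + (195003963 / 250000000) * (s2 * s2) + (1 / 5) * (s2 * s3) + (11912119 / 25000000) * (s2 * s4) + (3827893 / 6250000) * (s2 * s5) + (2342841 / 50000000) * (s3 * s0) + (1 / 5) * (s3 * s1) + (1 / 5) * (s3 * s2) + (6326750623 / 80000000000) * (s3 * s3) + (1 / 5) * (s3 * s4) + (10686187 / 100000000) * (s3 * s5) + (10704737 / 100000000) * (s4 * s0) + (26593137 / 50000000) * (s4 * s1) + (11912119 / 25000000) * (s4 * s2) + (1 / 5) * (s4 * s3) + (2696782719 /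 5000000000) * (s4 * s4) + (1 / 5) * (s4 * s5) + (1 / 5) * (s5 * s0) + (-7 / 100) * (s5 * s1) + (3827893 / 6250000) * (s5 * s2) + (10686187 / 100000000) * (s5 * s3) + (1 / 5) * (s5 * s4) + (9 / 10) * (s5 * s5) =
    (29267 / 500000) * (s0 + (100063 / 125000) * s3 + (1828803 / 1000000) * s4 + (3416811 / 1000000) * s2 + (109341 / 200000) * s1 + (3416811 / 1000000) * s5) ^ 2 +
    (1647 / 40000) * (s3 + (1388067 / 500000) * s4 + (484503 / 500000) * s2 + (211757 / 50000) * s1 + (-161623 / 125000) * s5) ^ 2 +
    (25853 / 1000000) * (s4 + (-159 / 100000) * s2 + (-416637 / 1000000) * s1 + (-694763 / 1000000) * s5) ^ 2 +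
    (57591 / 1000000) * (s2 + (-1360217 / 1000000) * s1 + (-83949 / 250000) * s5) ^ 2 +
    (1301 / 40000) * (s1 + (7591 / 20000) * s5) ^ 2 +
    (61871 / 500000) * (s5) ^ 2 +
    (7429 / 62500000000) * (s0 + s3) ^ 2 +
    (107599 / 500000000000) * (s0 + s4) ^ 2 +
    (192463 / 500000000000) * (s0 + s2) ^ 2 +
    (5953 / 100000000000) * (s0 + s1) ^ 2 +
    (192463 / 500000000000) * (s0 + s5) ^ 2 +
    (62933898737 / 62500000000000000) * (s3 + s4) ^ 2 +
    (42880300169 / 62500000000000000) * (s3 + s2) ^ 2 +
    (16471318039 / 12500000000000000) * (s3 + s1) ^ 2 +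
    (354074831 / 62500000000000000) * (s3 - s5) ^ 2 +
    (746885434439 / 500000000000000000) * (s4 + s2) ^ 2 +
    (334916977959 / 100000000000000000) * (s4 + s1) ^ 2 +
    (327830702811 / 500000000000000000) * (s4 - s5) ^ 2 +
    (15550976473 / 12500000000000000) * (s2 + s1) ^ 2 +
    (50129339011 / 62500000000000000) * (s2 + s5) ^ 2 +
    (46968127769 / 40000000000000000) * (s1 - s5) ^ 2 +
    (199477873 / 500000000000) * s0 ^ 2 +
    (12414713734517 / 31250000000000000) * s3 ^ 2 +
    (99058698116453 / 250000000000000000) * s4 ^ 2 +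
    (99273242956447 / 250000000000000000) * s2 ^ 2 +
    (399088035893319 / 1000000000000000000) * s1 ^ 2 +
    (199444904035077 / 500000000000000000) * s5 ^ 2 := by ring
  rw [h]
  positivity

/-- Matrices which are constant on the pairs of classes, up to the diagonal. -/
def CM (p : Fin 6 → Fin 6 → ℝ) (d : Fin 6 → ℝ) : Matrix V V ℝ :=
  fun v w => p v.1 w.1 + if v = w then d v.1 else 0

lemma sum_class (g : Fin 6 → ℝ) : ∑ v : V, g v.1 = ∑ c, (sz c : ℝ) * g c := by
  rw [Fintype.sum_sigma]
  apply Finset.sum_congr rfl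
  intro c _
  show ∑ _y : Fin (sz c), g c = (sz c : ℝ) * g c
  rw [Finset.sum_const, Finset.card_univ, Fintype.card_fin, nsmul_eq_mul]

lemma CM_mul (p b : Fin 6 → Fin 6 → ℝ) (d e : Fin 6 → ℝ) :
    CM p d * CM b e = CM (fun i k => ∑ j, (sz j : ℝ) * (p i j * b j k) + d i * b i k + p i k * e k)
      (fun i => d i * e i) := by
  ext v w
  rw [Matrix.mul_apply]
  have h : ∀ t : V, CM p d v t * CM b e t w = p v.1 t.1 * b t.1 w.1 +
      (if t = w then p v.1 w.1 * e w.1 else 0) + (if v = t then d v.1 * b v.1 w.1 else 0) +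
        (if v = t then (if v = w then d v.1 * e v.1 else 0) else 0) := by
    intro t
    unfold CM
    by_cases h1 : t = w
    · subst h1
      by_cases h2 : v = t
      · subst h2; simp; ring
      · rw [if_neg h2, if_pos rfl, if_pos rfl, if_neg h2, if_neg h2]; ring
    · by_cases h2 : v = t
      · subst h2
        rw [if_pos rfl, if_neg h1, if_neg h1, if_pos rfl, if_pos rfl, if_neg h1]; ring
      · rw [if_neg h2, if_neg h1, if_neg h1, if_neg h2, if_neg h2]; ring
  rw [Finset.sum_congr rfl (fun t _ => h t), Finset.sum_add_distrib, Finset.sum_add_distrib,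
    Finset.sum_add_distrib, Finset.sum_ite_eq', Finset.sum_ite_eq, Finset.sum_ite_eq,
    if_pos (Finset.mem_univ _), if_pos (Finset.mem_univ _), if_pos (Finset.mem_univ _),
    sum_class (fun c => p v.1 c * b c w.1)]
  unfold CM
  ring

/-- The comparison matrix. -/
noncomputable def M1 : Matrix V V ℝ := CM (fun i j => (P i j : ℝ)) (fun i => 1 - (P i i : ℝ))

/-- Its inverse. -/
noncomputable def K1 : Matrix V V ℝ := CM (fun i j => (B i j : ℝ)) (fun i => 1 / (1 - (P i i : ℝ)))

lemma sz_eq (c : Fin 6) : (sz c : ℝ) = ((m c : ℚ) : ℝ) := by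
  fin_cases c <;> simp [sz, m]

lemma check1 : ∀ i k : Fin 6, (m 0 * (P i 0 * B 0 k) + m 1 * (P i 1 * B 1 k) +
    m 2 * (P i 2 * B 2 k) + m 3 * (P i 3 * B 3 k) + m 4 * (P i 4 * B 4 k) +
    m 5 * (P i 5 * B 5 k)) + (1 - P i i) * B i k + P i k * (1 / (1 - P k k)) = 0 := by
  decide +kernel

lemma check2 : ∀ i : Fin 6, P i i < 1 ∧ 0 ≤ P i i := by decide +kernel

lemma M1K1 : M1 * K1 = 1 := by
  unfold M1 K1
  rw [CM_mul]
  ext v w
  unfold CM
  have h1 : ∑ j, (sz j : ℝ) * ((P v.1 j : ℝ) * (B j w.1 : ℝ)) +
      (1 - (P v.1 v.1 : ℝ)) * (B v.1 w.1 : ℝ) + (P v.1 w.1 : ℝ) * (1 / (1 - (P w.1 w.1 : ℝ))) = 0 := by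
    have h2 := check1 v.1 w.1
    have h3 : (((m 0 * (P v.1 0 * B 0 w.1) + m 1 * (P v.1 1 * B 1 w.1) +
      m 2 * (P v.1 2 * B 2 w.1) + m 3 * (P v.1 3 * B 3 w.1) + m 4 * (P v.1 4 * B 4 w.1) +
      m 5 * (P v.1 5 * B 5 w.1)) + (1 - P v.1 v.1) * B v.1 w.1 +
      P v.1 w.1 * (1 / (1 - P w.1 w.1)) : ℚ) : ℝ) = 0 := by rw [h2]; simp
    push_cast at h3
    rw [← h3]
    simp only [Fin.sum_univ_six, sz_eq]
  show (∑ j, (sz j : ℝ) * ((P v.1 j : ℝ) * (B j w.1 : ℝ)) +
      (1 - (P v.1 v.1 : ℝ)) * (B v.1 w.1 : ℝ) + (P v.1 w.1 : ℝ) * (1 / (1 - (P w.1 w.1 : ℝ)))) +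
      (if v = w then (1 - (P v.1 v.1 : ℝ)) * (1 / (1 - (P v.1 v.1 : ℝ))) else 0) =
      (1 : Matrix V V ℝ) v w
  rw [h1]
  by_cases hvw : v = w
  · subst hvw
    have h2 : (P v.1 v.1 : ℝ) < 1 := by exact_mod_cast (check2 v.1).1
    have h3 : (1 - (P v.1 v.1 : ℝ)) ≠ 0 := by linarith
    rw [if_pos rfl, Matrix.one_apply_eq]
    field_simp
    ring
  · rw [if_neg hvw, Matrix.one_apply_ne hvw]; ring

/-- The sums of squares over the classes. -/
lemma posDef : M1.PosDef := by
  have hsymm : ∀ i j : Fin 6, P i j = P j i := by decide +kernel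
  refine PosDef.of_dotProduct_mulVec_pos ?_ ?_
  · ext v w
    simp only [Matrix.conjTranspose_apply, star_trivial]
    unfold M1 CM
    show (P w.1 v.1 : ℝ) + (if w = v then 1 - (P w.1 w.1 : ℝ) else 0) =
      (P v.1 w.1 : ℝ) + (if v = w then 1 - (P v.1 v.1 : ℝ) else 0)
    rw [hsymm w.1 v.1]
    by_cases hvw : v = w
    · subst hvw; rfl
    · rw [if_neg hvw, if_neg (Ne.symm hvw)]
  · intro y hy
    rw [star_trivial]
    set S : Fin 6 → ℝ := fun c => ∑ i : Fin (sz c), y ⟨c, i⟩ with hS
    set R : Fin 6 → ℝ := fun c => ∑ i : Fin (sz c), y ⟨c, i⟩ ^ 2 with hR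
    have hform : y ⬝ᵥ (M1 *ᵥ y) = ∑ c, (1 - (P c c : ℝ)) * R c +
        ∑ c, ∑ c', (P c c' : ℝ) * (S c * S c') := by
      have h1 : y ⬝ᵥ (M1 *ᵥ y) = ∑ v : V, (∑ w : V, (P v.1 w.1 : ℝ) * (y v * y w) +
          (1 - (P v.1 v.1 : ℝ)) * y v ^ 2) := by
        unfold dotProduct Matrix.mulVec dotProduct
        apply Finset.sum_congr rfl
        intro v _
        rw [Finset.mul_sum]
        have h2 : ∀ w : V, y v * (M1 v w * y w) = (P v.1 w.1 : ℝ) * (y v * y w) +
            (if v = w then (1 - (P v.1 v.1 : ℝ)) * y v ^ 2 else 0) := by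
          intro w
          unfold M1 CM
          by_cases hvw : v = w
          · subst hvw; rw [if_pos rfl, if_pos rfl]; ring
          · rw [if_neg hvw, if_neg hvw]; ring
        rw [Finset.sum_congr rfl (fun w _ => h2 w), Finset.sum_add_distrib, Finset.sum_ite_eq,
          if_pos (Finset.mem_univ _)]
      rw [h1, Finset.sum_add_distrib, add_comm]
      congr 1
      · rw [Fintype.sum_sigma]
        apply Finset.sum_congr rfl
        intro c _
        rw [hR, Finset.mul_sum]
      · rw [Fintype.sum_sigma]
        apply Finset.sum_congr rfl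
        intro c _
        have h3 : ∀ i : Fin (sz c), ∑ w : V, (P (⟨c, i⟩ : V).1 w.1 : ℝ) * (y ⟨c, i⟩ * y w) =
            ∑ c', (P c c' : ℝ) * (y ⟨c, i⟩ * S c') := by
          intro i
          rw [Fintype.sum_sigma]
          apply Finset.sum_congr rfl
          intro c' _
          rw [hS, Finset.mul_sum, Finset.mul_sum]
        rw [Finset.sum_congr rfl (fun i _ => h3 i), Finset.sum_comm]
        apply Finset.sum_congr rfl
        intro c' _
        rw [← Finset.mul_sum, ← Finset.sum_mul]
    have hcs : ∀ c, S c ^ 2 ≤ (sz c : ℝ) * R c := by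
      intro c
      have := sq_sum_le_card_mul_sum_sq (s := (Finset.univ : Finset (Fin (sz c))))
        (f := fun i => y ⟨c, i⟩)
      rw [Finset.card_univ, Fintype.card_fin] at this
      exact this
    have hR0 : ∀ c, 0 ≤ R c := fun c => Finset.sum_nonneg fun i _ => sq_nonneg _
    have hRpos : ∃ c, 0 < R c := by
      by_contra hcon
      push Not at hcon
      apply hy
      funext v
      have h1 : R v.1 = 0 := le_antisymm (hcon v.1) (hR0 v.1)
      have h2 := (Finset.sum_eq_zero_iff_of_nonneg (fun i _ => sq_nonneg _)).1 h1 v.2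
        (Finset.mem_univ _)
      simpa using h2
    have hd : ∀ c, 0 < 1 - (P c c : ℝ) := by
      intro c
      have : (P c c : ℝ) < 1 := by exact_mod_cast (check2 c).1
      linarith
    have hsum : 0 < ∑ c, (1 - (P c c : ℝ)) * R c := by
      obtain ⟨c, hc⟩ := hRpos
      exact Finset.sum_pos' (fun c _ => mul_nonneg (hd c).le (hR0 c))
        ⟨c, Finset.mem_univ _, mul_pos (hd c) hc⟩
    have hkey : 0 ≤ ∑ c, (9 / 10 : ℝ) * ((1 - (P c c : ℝ)) * R c) +
        ∑ c, ∑ c', (P c c' : ℝ) * (S c * S c') := by
      have h1 : ∀ c, (9 / 10 : ℝ) * ((1 - (P c c : ℝ)) / (sz c : ℝ)) * S c ^ 2 ≤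
          (9 / 10 : ℝ) * ((1 - (P c c : ℝ)) * R c) := by
        intro c
        have hpos : (0 : ℝ) < sz c := by
          fin_cases c <;> simp [sz]
        have h2 := hcs c
        have h3 : (1 - (P c c : ℝ)) / (sz c : ℝ) * S c ^ 2 ≤ (1 - (P c c : ℝ)) * R c := by
          rw [div_mul_eq_mul_div, div_le_iff₀ hpos]
          have := mul_le_mul_of_nonneg_left h2 (hd c).le
          linarith
        linarith
      have h2 := quad_form (S 0) (S 1) (S 2) (S 3) (S 4) (S 5)
      have h3 : 0 ≤ ∑ c, (9 / 10 : ℝ) * ((1 - (P c c : ℝ)) / (sz c : ℝ)) * S c ^ 2 +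
          ∑ c, ∑ c', (P c c' : ℝ) * (S c * S c') := by
        refine le_of_le_of_eq h2 ?_
        simp only [Fin.sum_univ_six]
        simp only [P, sz, Matrix.cons_val, Matrix.cons_val_zero, Matrix.cons_val_one]
        push_cast
        ring
      have h4 := Finset.sum_le_sum fun c (_ : c ∈ (Finset.univ : Finset (Fin 6))) => h1 c
      linarith
    rw [hform]
    have h5 : ∑ c, (9 / 10 : ℝ) * ((1 - (P c c : ℝ)) * R c) =
        (9 / 10 : ℝ) * ∑ c, (1 - (P c c : ℝ)) * R c := by rw [Finset.mul_sum]
    rw [h5] at hkey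
    linarith

lemma base_adj : ∀ i j : Fin 6, base i j = true → P i j = 1 / 5 := by decide +kernel

lemma adm : Adm G (1 / 5) M1 := by
  refine ⟨posDef, fun v => ?_, fun v w h => ?_⟩
  · show (P v.1 v.1 : ℝ) + (if v = v then 1 - (P v.1 v.1 : ℝ) else 0) = 1
    rw [if_pos rfl]; ring
  · show (P v.1 w.1 : ℝ) + (if v = w then 1 - (P v.1 v.1 : ℝ) else 0) = 1 / 5
    rw [if_neg (G.ne_of_adj h), base_adj v.1 w.1 h]
    norm_num

/-- The bound for the contribution of a pair of classes. -/
def g (i j : Fin 6) : ℚ :=
  if base i j then 0 else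
  if (i = 1 ∧ j = 5) ∨ (i = 5 ∧ j = 1) then B i j * (7 / 100) else
  if i = j ∧ (i = 1 ∨ i = 5) then 0 else 2 * |B i j|

lemma check3 : (m 0 * (m 0 * g 0 0 + m 1 * g 0 1 + m 2 * g 0 2 + m 3 * g 0 3 + m 4 * g 0 4 + m 5 * g 0 5) +
    m 1 * (m 0 * g 1 0 + m 1 * g 1 1 + m 2 * g 1 2 + m 3 * g 1 3 + m 4 * g 1 4 + m 5 * g 1 5) +
    m 2 * (m 0 * g 2 0 + m 1 * g 2 1 + m 2 * g 2 2 + m 3 * g 2 3 + m 4 * g 2 4 + m 5 * g 2 5) +
    m 3 * (m 0 * g 3 0 + m 1 * g 3 1 + m 2 * g 3 2 + m 3 * g 3 3 + m 4 * g 3 4 + m 5 * g 3 5) +
    m 4 * (m 0 * g 4 0 + m 1 * g 4 1 + m 2 * g 4 2 + m 3 * g 4 3 + m 4 * g 4 4 + m 5 * g 4 5) +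
    m 5 * (m 0 * g 5 0 + m 1 * g 5 1 + m 2 * g 5 2 + m 3 * g 5 3 + m 4 * g 5 4 + m 5 * g 5 5)) < 0 := by
  decide +kernel

lemma check4 : P 1 5 = - 7 / 100 ∧ P 5 1 = - 7 / 100 ∧ B 1 5 < 0 ∧ B 5 1 < 0 := by decide +kernel

lemma check5 : ∀ i : Fin 6, 0 ≤ g i i := by decide +kernel

lemma single (c : Fin 6) (hc : c = 1 ∨ c = 5) (i j : Fin (sz c)) : i = j := by
  rcases hc with rfl | rfl
  · exact Subsingleton.elim (α := Fin 1) i j
  · exact Subsingleton.elim (α := Fin 1) i j

lemma negative (A : Matrix V V ℝ) (hA : IsMaxDet G (1 / 5) A) : ∃ u v, A u v < 0 := by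
  by_contra hcon
  push Not at hcon
  have h1 := compare hA adm M1K1
  have hAb := abs_le_one hA.1.posDef.posSemidef hA.1.diag
  have hMb := abs_le_one posDef.posSemidef adm.diag
  have h2 : ∑ v, ∑ w, K1 v w * (A w v - M1 w v) ≤ ∑ v : V, ∑ w : V, ((g v.1 w.1 : ℚ) : ℝ) := by
    apply Finset.sum_le_sum
    intro v _
    apply Finset.sum_le_sum
    intro w _
    by_cases hvw : v = w
    · subst hvw
      rw [hA.1.diag, adm.diag, sub_self, mul_zero]
      exact_mod_cast check5 v.1
    · have hK : K1 v w = (B v.1 w.1 : ℝ) := by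
        show (B v.1 w.1 : ℝ) + (if v = w then _ else 0) = _
        rw [if_neg hvw, add_zero]
      have hM : M1 w v = (P w.1 v.1 : ℝ) := by
        show (P w.1 v.1 : ℝ) + (if w = v then _ else 0) = _
        rw [if_neg (Ne.symm hvw), add_zero]
      unfold g
      by_cases c1 : base v.1 w.1 = true
      · have hadj : G.Adj w v := (show G.Adj v w from c1).symm
        rw [if_pos c1, hA.1.edge w v hadj, adm.edge w v hadj]
        simp
      · rw [if_neg c1]
        by_cases c2 : (v.1 = 1 ∧ w.1 = 5) ∨ (v.1 = 5 ∧ w.1 = 1)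
        · rw [if_pos c2, hK, hM]
          have hnn := hcon w v
          rcases c2 with ⟨e1, e2⟩ | ⟨e1, e2⟩
          · rw [e1, e2, check4.2.1]
            have hB : ((B 1 5 : ℚ) : ℝ) < 0 := by exact_mod_cast check4.2.2.1
            push_cast
            nlinarith
          · rw [e1, e2, check4.1]
            have hB : ((B 5 1 : ℚ) : ℝ) < 0 := by exact_mod_cast check4.2.2.2
            push_cast
            nlinarith
        · rw [if_neg c2]
          have c3 : ¬ (v.1 = w.1 ∧ (v.1 = 1 ∨ v.1 = 5)) := by
            rintro ⟨e1, e2⟩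
            apply hvw
            obtain ⟨c, i⟩ := v
            obtain ⟨c', j⟩ := w
            have e3 : c = c' := e1
            subst e3
            rw [single c e2 i j]
          rw [if_neg c3, hK]
          have h5 : |A w v - M1 w v| ≤ 2 := by
            have a1 := hAb w v
            have a2 := hMb w v
            have a3 := abs_sub (A w v) (M1 w v)
            linarith
          calc (B v.1 w.1 : ℝ) * (A w v - M1 w v) ≤ |(B v.1 w.1 : ℝ) * (A w v - M1 w v)| :=
                le_abs_self _
            _ = |(B v.1 w.1 : ℝ)| * |A w v - M1 w v| := abs_mul _ _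
            _ ≤ |(B v.1 w.1 : ℝ)| * 2 := mul_le_mul_of_nonneg_left h5 (abs_nonneg _)
            _ = ((2 * |B v.1 w.1| : ℚ) : ℝ) := by push_cast; ring
  have h3 : ∑ v : V, ∑ w : V, ((g v.1 w.1 : ℚ) : ℝ) =
      ∑ c, (sz c : ℝ) * ∑ c', (sz c' : ℝ) * ((g c c' : ℚ) : ℝ) := by
    rw [← sum_class (fun c => ∑ c', (sz c' : ℝ) * ((g c c' : ℚ) : ℝ))]
    apply Finset.sum_congr rfl
    intro v _
    exact sum_class (fun c' => ((g v.1 c' : ℚ) : ℝ))
  have h4 : ∑ c, (sz c : ℝ) * ∑ c', (sz c' : ℝ) * ((g c c' : ℚ) : ℝ) < 0 := by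
    have h5 := check3
    have h6 := (Rat.cast_lt (K := ℝ)).2 h5
    push_cast at h6
    simp only [Fin.sum_univ_six, sz_eq]
    exact h6
  linarith

lemma connected : G.Connected := by
  have hadj : ∀ (v w : V), base v.1 w.1 = true → G.Adj v w := fun v w h => h
  let a : V := ⟨0, ⟨0, by decide⟩⟩
  let b : V := ⟨1, ⟨0, by decide⟩⟩
  let c : V := ⟨2, ⟨0, by decide⟩⟩
  let d : V := ⟨3, ⟨0, by decide⟩⟩
  let e : V := ⟨4, ⟨0, by decide⟩⟩
  have hac : G.Reachable c a := (hadj c a rfl).reachable
  have hcd : G.Reachable c d := (hadj c d rfl).reachable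
  have hce : G.Reachable c e := hcd.trans (hadj d e rfl).reachable
  have key : ∀ v : V, G.Reachable c v := by
    rintro ⟨k, i⟩
    fin_cases k
    · exact (hadj c ⟨0, i⟩ rfl).reachable
    · exact (hadj c ⟨1, i⟩ rfl).reachable
    · exact hac.trans (hadj a ⟨2, i⟩ rfl).reachable
    · exact (hadj c ⟨3, i⟩ rfl).reachable
    · exact hcd.trans (hadj d ⟨4, i⟩ rfl).reachable
    · exact hac.trans (hadj a ⟨5, i⟩ rfl).reachable
  have : Nonempty V := ⟨c⟩
  exact ⟨fun u v => (key u).symm.trans (key v)⟩

/-- There are a connected graph `G` and `x ∈ (0, 1)`, namely `x = 1 / 5`, such that a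
determinant-maximising matrix in `𝒜(G, x)` exists and every such matrix has a negative entry. -/
theorem result : ∃ (V : Type) (_ : Fintype V) (_ : DecidableEq V) (G : SimpleGraph V) (x : ℝ),
    G.Connected ∧ 0 < x ∧ x < 1 ∧ (∃ A, IsMaxDet G x A) ∧
      ∀ A, IsMaxDet G x A → ∃ u v, A u v < 0 :=
  ⟨V, inferInstance, inferInstance, G, 1 / 5, connected, by norm_num, by norm_num,
    exists_max (by norm_num) (by norm_num), negative⟩

end Pool.Agent.Results.MP_e7c87c_co.NegativeEntry
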